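import Mathlib

set_option autoImplicit false

namespace Pool.Agent.MP_fab550_an.H76

open MeasureTheory

/-- The integer vector `k` as a point of the Euclidean plane. -/
noncomputable def lat (k : Fin 2 → ℤ) : EuclideanSpace ℝ (Fin 2) :=
  WithLp.toLp 2 (fun i => (k i : ℝ))

/-- `ℤ²`-periodic functions on the plane, i.e. functions on the torus. -/
def Per (f : EuclideanSpace ℝ (Fin 2) → ℝ) : Prop :=
  ∀ (k : Fin 2 → ℤ) (y : EuclideanSpace ℝ (Fin 2)), f (y + lat k) = f y

/-- Admissible speeds: almost everywhere measurable and periodic, essentially bounded above and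
essentially bounded below by a positive constant. -/
def Admissible (a : EuclideanSpace ℝ (Fin 2) → ℝ) : Prop :=
  AEMeasurable a volume ∧ (∀ k : Fin 2 → ℤ, ∀ᵐ y, a (y + lat k) = a y) ∧
    ∃ c C : ℝ, 0 < c ∧ ∀ᵐ y, c ≤ a y ∧ a y ≤ C

/-- The effective Hamiltonian. -/
noncomputable def Hbar (a : EuclideanSpace ℝ (Fin 2) → ℝ) (p : EuclideanSpace ℝ (Fin 2)) :
    ENNReal :=
  ⨅ (φ : EuclideanSpace ℝ (Fin 2) → ℝ) (_ : ContDiff ℝ 1 φ ∧ Per φ),
    essSup (fun y => ENNReal.ofReal (a y * ‖p + gradient φ y‖)) volume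

/-- The sublevel set `S_a`. -/
def Sset (a : EuclideanSpace ℝ (Fin 2) → ℝ) : Set (EuclideanSpace ℝ (Fin 2)) :=
  {p | Hbar a p ≤ 1}

end Pool.Agent.MP_fab550_an.H76
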