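import Mathlib
import Pool.Agent.MP_fab550_an.H76.Defs

set_option autoImplicit false

namespace Pool.Agent.MP_fab550_an.H76

open MeasureTheory Metric Finset Filter Topology
open scoped Convolution

abbrev E := EuclideanSpace ℝ (Fin 2)

/-- quasi-periodicity with the linear slope `l` -/
def QP (l : E →L[ℝ] ℝ) (u : E → ℝ) : Prop :=
  ∀ (k : Fin 2 → ℤ) (y : E), u (y + lat k) = u y + l (lat k)

lemma lat_apply (k : Fin 2 → ℤ) (i : Fin 2) : lat k i = (k i : ℝ) := rfl

lemma lat_neg (k : Fin 2 → ℤ) : lat (-k) = -lat k := by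
  ext i; simp [lat_apply]

lemma norm_le_two (y : E) (h : ∀ i, |y i| ≤ 1) : ‖y‖ ≤ 2 := by
  rw [EuclideanSpace.norm_eq, Real.sqrt_le_left (by norm_num), Fin.sum_univ_two]
  have h0 := h 0
  have h1 := h 1
  rw [Real.norm_eq_abs, Real.norm_eq_abs]
  nlinarith [abs_nonneg (y 0), abs_nonneg (y 1)]

lemma exists_lat (y : E) : ∃ k : Fin 2 → ℤ, ‖y + lat k‖ ≤ 2 := by
  refine ⟨fun i => -⌊y i⌋, norm_le_two _ (fun i => ?_)⟩
  have h1 := Int.floor_le (y i)
  have h2 := Int.lt_floor_add_one (y i)
  simp only [PiLp.add_apply, lat_apply, Int.cast_neg]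
  rw [abs_le]
  constructor <;> linarith

lemma unif (c : E → ℝ) (hc : Continuous c) (hp : Per c) (η : ℝ) (hη : 0 < η) :
    ∃ r : ℝ, 0 < r ∧ ∀ x y : E, ‖x - y‖ ≤ r → |c x - c y| ≤ η := by
  have h := (isCompact_closedBall (0 : E) 3).uniformContinuousOn_of_continuous hc.continuousOn
  rw [Metric.uniformContinuousOn_iff_le] at h
  obtain ⟨δ, hδ, h⟩ := h η hη
  refine ⟨min δ 1, lt_min hδ one_pos, fun x y hxy => ?_⟩
  obtain ⟨k, hk⟩ := exists_lat y
  have e : x + lat k - (y + lat k) = x - y := by abel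
  have h1 : ‖x + lat k‖ ≤ 3 := by
    have := norm_add_le (x - y) (y + lat k)
    rw [show x - y + (y + lat k) = x + lat k by abel] at this
    linarith [min_le_right δ 1]
  have := h (x + lat k) (by simpa using h1) (y + lat k) (by simp; linarith)
    (by rw [dist_eq_norm, e]; exact hxy.trans (min_le_left _ _))
  rwa [Real.dist_eq, hp, hp] at this

lemma unif_mul (c : E → ℝ) (hc : Continuous c) (hp : Per c) (m0 : ℝ) (hm : 0 < m0)
    (hcm : ∀ y, m0 ≤ c y) (η : ℝ) (hη : 0 < η) :
    ∃ r : ℝ, 0 < r ∧ ∀ x y : E, ‖x - y‖ ≤ r → c x ≤ (1 + η) * c y := by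
  obtain ⟨r, hr, h⟩ := unif c hc hp (η * m0) (by positivity)
  refine ⟨r, hr, fun x y hxy => ?_⟩
  have h1 := (abs_le.1 (h x y hxy)).2
  have h2 := mul_le_mul_of_nonneg_left (hcm y) hη.le
  linarith

lemma mollify (u c : E → ℝ) (l : E →L[ℝ] ℝ) (hu : Continuous u) (hq : QP l u) (r : ℝ) (hr : 0 < r)
    (hc : ∀ z, 0 ≤ c z)
    (hl : ∀ z y y' : E, ‖y - z‖ ≤ 2 * r → ‖y' - z‖ ≤ 2 * r → |u y - u y'| ≤ c z * ‖y - y'‖) :
    ∃ v : E → ℝ, ContDiff ℝ 1 v ∧ QP l v ∧ ∀ z, ‖fderiv ℝ v z‖ ≤ c z := by
  let ρ : ContDiffBump (0 : E) := ⟨r / 2, r, by positivity, by linarith⟩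
  let v : E → ℝ := (ρ.normed volume) ⋆[ContinuousLinearMap.lsmul ℝ ℝ, volume] u
  have hv : ∀ y, v y = ∫ t, ρ.normed volume t * u (y - t) := fun y => rfl
  have hint : ∀ y, Integrable (fun t => ρ.normed volume t * u (y - t)) volume := by
    intro y
    apply Continuous.integrable_of_hasCompactSupport
    · exact ρ.continuous_normed.mul (hu.comp (continuous_const.sub continuous_id))
    · exact ρ.hasCompactSupport_normed.mul_right
  refine ⟨v, ?_, ?_, ?_⟩
  · exact ρ.hasCompactSupport_normed.contDiff_convolution_left _ (ρ.contDiff_normed (n := 1))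
      hu.locallyIntegrable
  · intro k y
    rw [hv, hv]
    have e : ∀ t, ρ.normed volume t * u (y + lat k - t) =
        ρ.normed volume t * u (y - t) + ρ.normed volume t * l (lat k) := by
      intro t
      rw [show y + lat k - t = y - t + lat k by abel, hq, mul_add]
    simp only [e]
    rw [integral_add (hint y) (ρ.integrable_normed.mul_const _), integral_mul_const,
      ρ.integral_normed, one_mul]
  · intro z
    apply norm_fderiv_le_of_lip' ℝ (hc z)
    filter_upwards [closedBall_mem_nhds z hr] with y hy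
    rw [mem_closedBall, dist_eq_norm] at hy
    rw [hv, hv, ← integral_sub (hint y) (hint z)]
    calc _ ≤ ∫ t, ρ.normed volume t * (c z * ‖y - z‖) := by
          apply norm_integral_le_of_norm_le (ρ.integrable_normed.mul_const _)
          apply ae_of_all
          intro t
          rw [← mul_sub, norm_mul, Real.norm_eq_abs, abs_of_nonneg (ρ.nonneg_normed t)]
          by_cases ht : ρ.normed volume t = 0
          · rw [ht]; simp
          · apply mul_le_mul_of_nonneg_left _ (ρ.nonneg_normed t)
            have h1 : t ∈ Function.support (ρ.normed volume) := ht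
            rw [ρ.support_normed_eq, mem_ball, dist_zero_right] at h1
            have h1' : ‖t‖ < r := h1
            have := hl z (y - t) (z - t) (by
              rw [show y - t - z = (y - z) - t by abel]
              linarith [norm_sub_le (y - z) t]) (by
              rw [show z - t - z = -t by abel, norm_neg]; linarith)
            rwa [show y - t - (z - t) = y - z by abel] at this
      _ = _ := by rw [integral_mul_const, ρ.integral_normed, one_mul]

/-- cost of a chain -/
noncomputable def cost (c : E → ℝ) (x : ℕ → E) (N : ℕ) : ℝ :=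
  ∑ i ∈ range N, c (x i) * ‖x (i + 1) - x i‖

lemma chain_exists (c : E → ℝ) (hc : Continuous c) (hp : Per c) (m0 M0 : ℝ) (hm : 0 < m0)
    (hcm : ∀ y, m0 ≤ c y) (hcM : ∀ y, c y ≤ M0) (l : E →L[ℝ] ℝ)
    (hno : ∀ lam : ℝ, 1 < lam → ¬∃ v : E → ℝ, ContDiff ℝ 1 v ∧ QP (lam • l) v ∧
      ∀ z, ‖fderiv ℝ v z‖ ≤ c z)
    (lam : ℝ) (hlam : 1 < lam) (h : ℝ) (hh : 0 < h) (M : ℝ) :
    ∃ (x : ℕ → E) (N : ℕ), (∀ i < N, ‖x (i + 1) - x i‖ ≤ h) ∧
      M ≤ lam * (l (x N) - l (x 0)) - cost c x N := by
  by_contra hcon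
  push Not at hcon
  let V : E → Set ℝ := fun y => {t | ∃ (x : ℕ → E) (N : ℕ), x 0 = y ∧
    (∀ i < N, ‖x (i + 1) - x i‖ ≤ h) ∧ t = lam * l (x N) - cost c x N}
  have hne : ∀ y, (V y).Nonempty := fun y =>
    ⟨_, fun _ => y, 0, rfl, fun i hi => absurd hi (Nat.not_lt_zero i), rfl⟩
  have hbd : ∀ y, BddAbove (V y) := by
    intro y
    refine ⟨M + lam * l y, ?_⟩
    rintro t ⟨x, N, rfl, hx, rfl⟩
    have := hcon x N hx
    linarith
  let u : E → ℝ := fun y => sSup (V y)
  have hstep : ∀ y y' : E, ‖y' - y‖ ≤ h → u y' ≤ u y + c y * ‖y' - y‖ := by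
    intro y y' hy
    apply csSup_le (hne y')
    rintro t ⟨x, N, rfl, hx, rfl⟩
    let x' : ℕ → E := fun i => Nat.casesOn i y x
    have hmem : lam * l (x' (N + 1)) - cost c x' (N + 1) ∈ V y := by
      refine ⟨x', N + 1, rfl, ?_, rfl⟩
      intro i hi
      cases i with
      | zero => exact hy
      | succ i => exact hx i (by omega)
    have h1 := le_csSup (hbd y) hmem
    have h2 : cost c x' (N + 1) = cost c x N + c y * ‖x 0 - y‖ := by
      unfold cost
      rw [Finset.sum_range_succ']
      rfl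
    have h3 : x' (N + 1) = x N := rfl
    rw [h2, h3] at h1
    change _ ≤ sSup (V y) + _
    linarith
  have htr : ∀ (k : Fin 2 → ℤ) (y : E), u y + lam * l (lat k) ≤ u (y + lat k) := by
    intro k y
    have : u y ≤ u (y + lat k) - lam * l (lat k) := by
      apply csSup_le (hne y)
      rintro t ⟨x, N, rfl, hx, rfl⟩
      have hmem : lam * l (x N + lat k) - cost c (fun i => x i + lat k) N ∈ V (x 0 + lat k) := by
        refine ⟨fun i => x i + lat k, N, rfl, ?_, rfl⟩
        intro i hi
        simpa using hx i hi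
      have h1 := le_csSup (hbd _) hmem
      have h2 : cost c (fun i => x i + lat k) N = cost c x N := by
        unfold cost
        apply Finset.sum_congr rfl
        intro i _
        rw [hp]
        simp
      rw [h2, map_add] at h1
      change _ ≤ sSup (V (x 0 + lat k)) - _
      linarith
    linarith
  have hq : QP (lam • l) u := by
    intro k y
    have h1 := htr k y
    have h2 := htr (-k) (y + lat k)
    rw [lat_neg, map_neg, add_neg_cancel_right] at h2
    simp only [smul_apply, smul_eq_mul]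
    linarith
  have hloc : ∀ (L : ℝ) (y y' : E), ‖y - y'‖ ≤ h → c y ≤ L → c y' ≤ L →
      |u y - u y'| ≤ L * ‖y - y'‖ := by
    intro L y y' hy h1 h2
    have a1 := hstep y' y hy
    have a2 := hstep y y' (by rwa [norm_sub_rev])
    rw [norm_sub_rev y' y] at a2
    have b1 := mul_le_mul_of_nonneg_right h1 (norm_nonneg (y - y'))
    have b2 := mul_le_mul_of_nonneg_right h2 (norm_nonneg (y - y'))
    rw [abs_le]
    constructor <;> linarith
  have hcont : Continuous u := by
    rw [continuous_iff_continuousAt]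
    intro y
    have h0 : Tendsto (fun y' => M0 * ‖y' - y‖) (𝓝 y) (𝓝 0) := by
      have : Continuous (fun y' : E => M0 * ‖y' - y‖) := by fun_prop
      simpa using this.tendsto y
    rw [ContinuousAt, tendsto_iff_norm_sub_tendsto_zero]
    apply squeeze_zero' (Eventually.of_forall (fun _ => norm_nonneg _)) _ h0
    filter_upwards [closedBall_mem_nhds y hh] with y' hy'
    rw [mem_closedBall, dist_eq_norm] at hy'
    exact hloc M0 y' y hy' (hcM _) (hcM _)
  set η := (lam - 1) / 2 with hη
  have hη0 : 0 < η := by rw [hη]; linarith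
  obtain ⟨r, hr, hr'⟩ := unif_mul c hc hp m0 hm hcm η hη0
  obtain ⟨v, hv1, hv2, hv3⟩ := mollify u (fun z => (1 + η) * c z) (lam • l) hcont hq
    (min r h / 4) (by positivity) (fun z => mul_nonneg (by linarith) (hm.le.trans (hcm z))) (by
      intro z y y' hy hy'
      have a1 := min_le_left r h
      have a2 := min_le_right r h
      have a3 : 0 < min r h := lt_min hr hh
      apply hloc
      · have := norm_sub_le_norm_sub_add_norm_sub y z y'
        rw [norm_sub_rev z y'] at this
        linarith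
      · exact hr' y z (by linarith)
      · exact hr' y' z (by linarith))
  have h1η : 0 < 1 + η := by linarith
  apply hno (lam / (1 + η)) (by rw [lt_div_iff₀ h1η]; linarith)
  refine ⟨fun y => (1 + η)⁻¹ * v y, contDiff_const.mul hv1, ?_, ?_⟩
  · intro k y
    simp only
    rw [hv2 k y]
    simp only [smul_apply, smul_eq_mul]
    field_simp
  · intro z
    have hd : DifferentiableAt ℝ v z := hv1.differentiable one_ne_zero z
    rw [fderiv_const_mul hd, norm_smul, Real.norm_eq_abs, abs_of_pos (by positivity),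
      inv_mul_le_iff₀ h1η]
    exact hv3 z

end Pool.Agent.MP_fab550_an.H76
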