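import Mathlib
import Pool.Agent.MP_fab550_an.H76.Chain

set_option autoImplicit false

namespace Pool.Agent.MP_fab550_an.H76

open MeasureTheory Metric Finset Filter Topology

noncomputable def lP : E →L[ℝ] ℝ := EuclideanSpace.proj 0

noncomputable def lQ : E →L[ℝ] ℝ := √2 • EuclideanSpace.proj 0 + EuclideanSpace.proj 1

lemma lP_apply (y : E) : lP y = y 0 := rfl

lemma lQ_apply (y : E) : lQ y = √2 * y 0 + y 1 := rfl

lemma dense_levels (τ : ℝ) (hτ : 0 < τ) :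
    ∃ R : ℕ, ∀ x : ℝ, ∃ j k : ℤ, |j| ≤ R ∧ |√2 * j + k - x| ≤ τ := by
  have hd : Dense (AddSubgroup.closure {√2, 1} : Set ℝ) :=
    dense_addSubgroupClosure_pair_iff.2 (by simpa using irrational_sqrt_two)
  let U : ℕ → Set ℝ := fun R => {x | ∃ j k : ℤ, |j| ≤ R ∧ |√2 * j + k - x| < τ}
  have hU : ∀ R, IsOpen (U R) := by
    intro R
    rw [isOpen_iff_mem_nhds]
    rintro x ⟨j, k, h1, h2⟩
    have : Continuous (fun x : ℝ => |√2 * j + k - x|) := by fun_prop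
    filter_upwards [(isOpen_lt this continuous_const).mem_nhds h2] with y hy
    exact ⟨j, k, h1, hy⟩
  have hcov : Set.Icc (0 : ℝ) 1 ⊆ ⋃ R, U R := by
    intro x _
    obtain ⟨y, hy1, hy2⟩ := hd.exists_dist_lt x hτ
    obtain ⟨j, k, rfl⟩ := AddSubgroup.mem_closure_pair.1 hy1
    refine Set.mem_iUnion.2 ⟨j.natAbs, j, k, by simp, ?_⟩
    rw [dist_comm, Real.dist_eq] at hy2
    simpa [mul_comm] using hy2
  have hdir : Directed (· ⊆ ·) U := by
    apply Monotone.directed_le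
    rintro a b hab x ⟨j, k, h1, h2⟩
    exact ⟨j, k, h1.trans (by exact_mod_cast hab), h2⟩
  obtain ⟨R, hR⟩ := isCompact_Icc.elim_directed_cover U hU hcov hdir
  refine ⟨R, fun x => ?_⟩
  obtain ⟨j, k, h1, h2⟩ := hR ⟨Int.fract_nonneg x, (Int.fract_lt_one x).le⟩
  refine ⟨j, k + ⌊x⌋, h1, ?_⟩
  rw [Int.fract] at h2
  push_cast
  rw [show √2 * j + (k + ⌊x⌋) - x = √2 * j + k - (x - ⌊x⌋) by ring]
  exact h2.le

lemma block (F D : ℕ → ℝ) (N : ℕ) (θ T : ℝ) (hθ : 0 < θ) (hT : 0 < T) (hF0 : F 0 = 0)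
    (hD0 : D 0 = 0) (hD : ∀ i j, i ≤ j → j ≤ N → D i ≤ D j) (hDN : D N ≤ θ * F N)
    (hs : ∀ i < N, F (i + 1) - F i ≤ 1) (hFN : 2 * T ≤ F N) :
    ∃ i0 j0, i0 ≤ j0 ∧ j0 ≤ N ∧ T ≤ F j0 - F i0 ∧ D j0 - D i0 ≤ 2 * θ * (T + 1) := by
  obtain ⟨i0, hi0, hmax⟩ := Finset.exists_max_image (range (N + 1))
    (fun i => D i - 2 * θ * F i) ⟨0, by simp⟩
  rw [mem_range] at hi0
  have h0 := hmax 0 (by simp)
  have hN := hD i0 N (by omega) le_rfl
  rw [hF0, hD0] at h0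
  have h1 : T ≤ F N - F i0 := by
    have : θ * (2 * T) ≤ θ * (2 * (F N - F i0)) := by nlinarith
    have := le_of_mul_le_mul_left this hθ
    linarith
  have hex : ∃ j, i0 ≤ j ∧ T ≤ F j - F i0 := ⟨N, by omega, h1⟩
  have hspec := Nat.find_spec hex
  have hle : Nat.find hex ≤ N := Nat.find_min' hex ⟨by omega, h1⟩
  refine ⟨i0, Nat.find hex, hspec.1, hle, hspec.2, ?_⟩
  have hne : Nat.find hex ≠ i0 := by
    intro h
    rw [h] at hspec
    linarith [hspec.2]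
  obtain ⟨j, hj⟩ : ∃ j, Nat.find hex = j + 1 := ⟨Nat.find hex - 1, by omega⟩
  have hmin := Nat.find_min hex (m := j) (by omega)
  have hj1 : F j - F i0 < T := by
    by_contra hn
    exact hmin ⟨by omega, not_lt.1 hn⟩
  have h2 := hmax (j + 1) (by rw [mem_range]; omega)
  have h3 := hs j (by omega)
  rw [hj]
  nlinarith

lemma cost_succ (c : E → ℝ) (x : ℕ → E) (i : ℕ) :
    cost c x (i + 1) = cost c x i + c (x i) * ‖x (i + 1) - x i‖ := by
  unfold cost; rw [Finset.sum_range_succ]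

lemma cost_ge (c : E → ℝ) (x : ℕ → E) (γ : ℝ) (hγ : 0 ≤ γ) (i j : ℕ) (hij : i ≤ j)
    (h : ∀ l, i ≤ l → l < j → γ ≤ c (x l)) : γ * ‖x j - x i‖ ≤ cost c x j - cost c x i := by
  induction j, hij using Nat.le_induction with
  | base => simp
  | succ j hij ih =>
    have h1 := ih (fun l h1 h2 => h l h1 (by omega))
    have h2 := mul_le_mul_of_nonneg_right (h j hij (by omega)) (norm_nonneg (x (j + 1) - x j))
    have h3 := mul_le_mul_of_nonneg_left
      (norm_sub_le_norm_sub_add_norm_sub (x (j + 1)) (x j) (x i)) hγ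
    rw [cost_succ]
    linarith

lemma lip_of_fderiv (A : E → ℝ) (hA : ContDiff ℝ 1 A) (L : ℝ) (y : E) (h : ℝ)
    (hb : ∀ x, ‖x - y‖ ≤ h → ‖fderiv ℝ A x‖ ≤ L) (y' : E) (hy : ‖y' - y‖ ≤ h) :
    |A y' - A y| ≤ L * ‖y' - y‖ := by
  have h0 : 0 ≤ h := (norm_nonneg _).trans hy
  exact (convex_closedBall y h).norm_image_sub_le_of_norm_fderiv_le (𝕜 := ℝ)
    (fun x _ => hA.differentiable one_ne_zero x)
    (fun x hx => hb x (by rwa [mem_closedBall, dist_eq_norm] at hx))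
    (mem_closedBall_self h0) (by rwa [mem_closedBall, dist_eq_norm])

lemma qp_bound (u : E → ℝ) (l : E →L[ℝ] ℝ) (hq : QP l u) (L : ℝ) (hL : 0 ≤ L)
    (hu : ∀ y y', |u y' - u y| ≤ L * ‖y' - y‖) (y : E) :
    |u y - u 0 - l y| ≤ 2 * L + 2 * ‖l‖ := by
  obtain ⟨k, hk⟩ := exists_lat y
  have h1 := hu 0 (y + lat k)
  rw [hq, sub_zero] at h1
  have h2 : |l (y + lat k)| ≤ ‖l‖ * ‖y + lat k‖ := l.le_opNorm _
  rw [map_add] at h2
  have h3 := mul_le_mul_of_nonneg_left hk hL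
  have h4 := mul_le_mul_of_nonneg_left hk (norm_nonneg l)
  rw [abs_le] at h1 h2 ⊢
  constructor <;> linarith [h1.1, h1.2, h2.1, h2.2]

/-- data at one level of approximation -/
structure Lvl (m0 M0 ε : ℝ) (c A B : E → ℝ) : Prop where
  cont : Continuous c
  per : Per c
  lo : ∀ y, m0 ≤ c y
  hi : ∀ y, c y ≤ M0
  no : ∀ lam : ℝ, 1 < lam → ¬∃ v : E → ℝ, ContDiff ℝ 1 v ∧ QP (lam • lP) v ∧
      ∀ z, ‖fderiv ℝ v z‖ ≤ c z
  dA : ContDiff ℝ 1 A
  dB : ContDiff ℝ 1 B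
  qA : QP (lP + lQ) A
  qB : QP (lP - lQ) B
  bA : ∀ z, ‖fderiv ℝ A z‖ ≤ (1 + ε) * c z
  bB : ∀ z, ‖fderiv ℝ B z‖ ≤ (1 + ε) * c z

lemma glob_lip {m0 M0 ε : ℝ} {c A : E → ℝ} (hm : 0 < m0) (hε1 : ε ≤ 1) (lo : ∀ y, m0 ≤ c y)
    (hi : ∀ y, c y ≤ M0) (dA : ContDiff ℝ 1 A) (bA : ∀ z, ‖fderiv ℝ A z‖ ≤ (1 + ε) * c z)
    (y y' : E) : |A y' - A y| ≤ 2 * M0 * ‖y' - y‖ :=
  lip_of_fderiv A dA _ y _ (fun x _ => (bA x).trans (by nlinarith [lo x, hi x])) y' le_rfl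

lemma qp_f {A B : E → ℝ} (qA : QP (lP + lQ) A) (qB : QP (lP - lQ) B) :
    QP lP (fun y => (A y + B y) / 2) := by
  intro k y
  simp only [qA k y, qB k y, add_apply, sub_apply]
  ring

lemma qp_g {A B : E → ℝ} (qA : QP (lP + lQ) A) (qB : QP (lP - lQ) B) :
    QP lQ (fun y => (A y - B y) / 2) := by
  intro k y
  simp only [qA k y, qB k y, add_apply, sub_apply]
  ring

lemma point {m0 M0 ε : ℝ} {c A B : E → ℝ} (hm : 0 < m0) (H : Lvl m0 M0 ε c A B) (τ : ℝ)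
    (hτ : 0 < τ) (hτ1 : τ ≤ 1) (R : ℕ) (hR : ∀ x : ℝ, ∃ j k : ℤ, |j| ≤ R ∧ |√2 * j + k - x| ≤ τ)
    (hε : 0 < ε) (hε1 : ε ≤ 1) (hετ : 10 * ε * (2 * R + 2 * M0 + 3) ≤ τ) (s t : ℝ) :
    ∃ z : E, |(A z + B z) / 2 - s| ≤ τ ∧ |(A z - B z) / 2 - t| ≤ 2 * τ ∧
      ∀ r γ : ℝ, 0 < r → r ≤ 1 → 0 ≤ γ → (∀ y, ‖y - z‖ ≤ r → γ ≤ c y) →
        ∃ w : E, r ≤ ‖w - z‖ ∧ ‖w - z‖ ≤ r + τ ∧
          γ * ‖w - z‖ - τ ≤ (A w + B w) / 2 - (A z + B z) / 2 := by
  have hM : 0 < M0 := lt_of_lt_of_le hm ((H.lo 0).trans (H.hi 0))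
  set f : E → ℝ := fun y => (A y + B y) / 2 with hf
  set g : E → ℝ := fun y => (A y - B y) / 2 with hg
  have qf : QP lP f := qp_f H.qA H.qB
  have qg : QP lQ g := qp_g H.qA H.qB
  have lA := glob_lip hm hε1 H.lo H.hi H.dA H.bA
  have lB := glob_lip hm hε1 H.lo H.hi H.dB H.bB
  have lf : ∀ y y', |f y' - f y| ≤ 2 * M0 * ‖y' - y‖ := by
    intro y y'
    have h1 := abs_le.1 (lA y y')
    have h2 := abs_le.1 (lB y y')
    simp only [hf]
    rw [abs_le]
    constructor <;> linarith [h1.1, h1.2, h2.1, h2.2]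
  obtain ⟨r0, hr0, hr0'⟩ := unif_mul c H.cont H.per m0 hm H.lo (ε / 2) (by positivity)
  set h := min r0 (τ / (2 * M0 + 1)) with hh
  have hh0 : 0 < h := lt_min hr0 (by positivity)
  have hh1 : h * (2 * M0 + 1) ≤ τ := by
    rw [← le_div_iff₀ (by positivity)]; exact min_le_right _ _
  have hhτ : h ≤ τ := by nlinarith
  have hloc : ∀ (U : E → ℝ), ContDiff ℝ 1 U → (∀ z, ‖fderiv ℝ U z‖ ≤ (1 + ε) * c z) →
      ∀ y y' : E, ‖y' - y‖ ≤ h → |U y' - U y| ≤ (1 + 2 * ε) * c y * ‖y' - y‖ := by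
    intro U dU bU y y' hy
    apply lip_of_fderiv U dU _ y h _ y' hy
    intro x hx
    have h1 := hr0' x y (hx.trans (min_le_left _ _))
    have h2 : 0 ≤ c y := hm.le.trans (H.lo y)
    calc _ ≤ (1 + ε) * c x := bU x
      _ ≤ (1 + ε) * ((1 + ε / 2) * c y) := by gcongr
      _ = ((1 + ε) * (1 + ε / 2)) * c y := by ring
      _ ≤ _ := mul_le_mul_of_nonneg_right (by nlinarith) h2
  set T : ℝ := 2 * R + 2 * M0 + 2 with hT
  have hT0 : 0 < T := by positivity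
  set Cf := 2 * (2 * M0) + 2 * ‖lP‖ with hCf
  have hCf0 : 0 ≤ Cf := by positivity
  obtain ⟨x, N, hx, hM'⟩ := chain_exists c H.cont H.per m0 M0 hm H.lo H.hi lP H.no (1 + ε)
    (by linarith) h hh0 (4 * T + 4 * Cf)
  have hcost0 : 0 ≤ cost c x N :=
    Finset.sum_nonneg (fun i _ => mul_nonneg (hm.le.trans (H.lo _)) (norm_nonneg _))
  let F : ℕ → ℝ := fun i => f (x i) - f (x 0)
  let D : ℕ → ℝ := fun i => (1 + 2 * ε) * cost c x i - F i
  have hFN : 4 * T + cost c x N ≤ (1 + ε) * F N := by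
    have h1 := abs_le.1 (qp_bound f lP qf (2 * M0) (by positivity) lf (x N))
    have h2 := abs_le.1 (qp_bound f lP qf (2 * M0) (by positivity) lf (x 0))
    rw [← hCf] at h1 h2
    have h3 : lP (x N) - lP (x 0) ≤ F N + 2 * Cf := by
      simp only [F]; linarith [h1.1, h2.2]
    have h4 := mul_le_mul_of_nonneg_left h3 (show 0 ≤ 1 + ε by linarith)
    nlinarith
  have hFN0 : 2 * T ≤ F N := by
    by_contra hn
    push Not at hn
    nlinarith
  have hstepD : ∀ i < N, |g (x (i + 1)) - g (x i)| ≤ D (i + 1) - D i := by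
    intro i hi
    have h1 := abs_le.1 (hloc A H.dA H.bA (x i) (x (i + 1)) (hx i hi))
    have h2 := abs_le.1 (hloc B H.dB H.bB (x i) (x (i + 1)) (hx i hi))
    simp only [D, F, cost_succ, hf, hg]
    rw [abs_le]
    constructor <;> linarith [h1.1, h1.2, h2.1, h2.2]
  have hgD : ∀ i j, i ≤ j → j ≤ N → |g (x j) - g (x i)| ≤ D j - D i := by
    intro i j hij
    induction j, hij using Nat.le_induction with
    | base => simp
    | succ j hij ih =>
      intro hj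
      have h1 := ih (by omega)
      have h2 := hstepD j (by omega)
      have h3 := abs_sub_le (g (x (j + 1))) (g (x j)) (g (x i))
      linarith
  have hDm : ∀ i j, i ≤ j → j ≤ N → D i ≤ D j := fun i j hij hj => by
    linarith [hgD i j hij hj, abs_nonneg (g (x j) - g (x i))]
  have hstepF : ∀ i < N, f (x (i + 1)) - f (x i) ≤ τ := by
    intro i hi
    have h1 := (abs_le.1 (lf (x i) (x (i + 1)))).2
    have h2 := mul_le_mul_of_nonneg_left (hx i hi) (show 0 ≤ 2 * M0 by positivity)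
    nlinarith
  obtain ⟨i0, j0, hij0, hj0, hTF, hδ⟩ := block F D N (5 * ε) T (by positivity) hT0
    (by simp [F]) (by simp [D, F, cost]) hDm (by
      simp only [D]
      have h1 : cost c x N ≤ (1 + ε) * F N := by linarith
      have h2 := mul_le_mul_of_nonneg_left h1 (show 0 ≤ 1 + 2 * ε by linarith)
      have h3 : 0 ≤ F N := by linarith
      have h4 : (1 + 2 * ε) * (1 + ε) ≤ 1 + 5 * ε := by nlinarith
      nlinarith [mul_le_mul_of_nonneg_right h4 h3])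
    (fun i hi => by simp only [F]; linarith [hstepF i hi]) hFN0
  have hδ' : D j0 - D i0 ≤ τ := by
    have : 2 * (5 * ε) * (T + 1) = 10 * ε * (2 * R + 2 * M0 + 3) := by rw [hT]; ring
    linarith
  have hDij : ∀ i j, i0 ≤ i → i ≤ j → j ≤ j0 → D j - D i ≤ τ := fun i j h1 h2 h3 => by
    linarith [hDm i0 i h1 (by omega), hDm j j0 h3 hj0]
  obtain ⟨j', k1, hj', hk1⟩ := hR (t - g (x i0) - √2 * ((⌊s - f (x i0)⌋ - R : ℤ) : ℝ))
  set k0 : ℤ := ⌊s - f (x i0)⌋ - R + j' with hk0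
  let k : Fin 2 → ℤ := ![k0, k1]
  have hkP : lP (lat k) = k0 := rfl
  have hkQ : lQ (lat k) = √2 * k0 + k1 := rfl
  have hfl1 := Int.floor_le (s - f (x i0))
  have hfl2 := Int.lt_floor_add_one (s - f (x i0))
  have hj'1 : -(R : ℝ) ≤ j' := by exact_mod_cast (abs_le.1 hj').1
  have hj'2 : (j' : ℝ) ≤ R := by exact_mod_cast (abs_le.1 hj').2
  have hk0r : (k0 : ℝ) = ⌊s - f (x i0)⌋ - R + j' := by rw [hk0]; push_cast; rfl
  have hTF' : T ≤ f (x j0) - f (x i0) := by simp only [F] at hTF; linarith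
  have hex : ∃ i, i0 ≤ i ∧ s ≤ f (x i) + k0 := ⟨j0, hij0, by linarith⟩
  set i := Nat.find hex with hi
  have hspec : i0 ≤ i ∧ s ≤ f (x i) + k0 := Nat.find_spec hex
  have hij : i ≤ j0 := Nat.find_min' hex ⟨hij0, by linarith⟩
  have hup : f (x i) + k0 ≤ s + τ := by
    rcases hspec.1.eq_or_lt with e | e
    · rw [← e]; linarith
    · obtain ⟨i', hi'⟩ : ∃ i', i = i' + 1 := ⟨i - 1, by omega⟩
      have hmin := Nat.find_min hex (m := i') (by omega)
      have h1 : f (x i') + k0 < s := by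
        by_contra hn
        exact hmin ⟨by omega, not_lt.1 hn⟩
      have h2 := hstepF i' (by omega)
      rw [hi']
      linarith
  have hfar : 1 ≤ ‖x j0 - x i‖ := by
    have h1 := (abs_le.1 (lf (x i) (x j0))).2
    have h2 : 2 * M0 * 1 ≤ 2 * M0 * ‖x j0 - x i‖ := by linarith
    exact le_of_mul_le_mul_left h2 (by positivity)
  refine ⟨x i + lat k, ?_, ?_, ?_⟩
  · change |f (x i + lat k) - s| ≤ τ
    rw [qf, hkP, abs_le]
    constructor <;> linarith [hspec.2]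
  · change |g (x i + lat k) - t| ≤ 2 * τ
    rw [qg, hkQ, hk0r]
    have h1 := abs_le.1 ((hgD i0 i hspec.1 (by omega)).trans (hDij i0 i le_rfl hspec.1 hij))
    have h2 := abs_le.1 hk1
    push_cast at h2
    rw [abs_le]
    constructor <;> linarith [h1.1, h1.2, h2.1, h2.2]
  · intro r γ hr hr1 hγ hc
    have hex2 : ∃ j, i ≤ j ∧ r ≤ ‖x j - x i‖ := ⟨j0, hij, by linarith⟩
    have hsp := Nat.find_spec hex2
    have hjj : Nat.find hex2 ≤ j0 := Nat.find_min' hex2 ⟨hij, by linarith⟩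
    have hlt : ∀ l, i ≤ l → l < Nat.find hex2 → ‖x l - x i‖ < r := by
      intro l h1 h2
      by_contra hn
      exact Nat.find_min hex2 h2 ⟨h1, not_lt.1 hn⟩
    set j := Nat.find hex2 with hj
    have hne : j ≠ i := by
      intro e
      rw [e] at hsp
      simp at hsp
      linarith
    have e1 : x j + lat k - (x i + lat k) = x j - x i := by abel
    refine ⟨x j + lat k, by rw [e1]; exact hsp.2, ?_, ?_⟩
    · rw [e1]
      obtain ⟨j1, hj1⟩ : ∃ j1, j = j1 + 1 := ⟨j - 1, by omega⟩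
      have h1 := hlt j1 (by omega) (by omega)
      have h2 := hx j1 (by omega)
      have h3 := norm_sub_le_norm_sub_add_norm_sub (x (j1 + 1)) (x j1) (x i)
      rw [hj1]
      linarith
    · change _ ≤ f (x j + lat k) - f (x i + lat k)
      rw [e1, qf, qf]
      have h1 := cost_ge c x γ hγ i j hsp.1 (fun l h1 h2 => by
        have := hc (x l + lat k) (by
          rw [show x l + lat k - (x i + lat k) = x l - x i by abel]
          exact (hlt l h1 h2).le)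
        rwa [H.per] at this)
      have h2 := hDij i j hspec.1 hsp.1 hjj
      simp only [D, F] at h2
      have h3 : 0 ≤ cost c x j - cost c x i := le_trans (by positivity) h1
      nlinarith

end Pool.Agent.MP_fab550_an.H76
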