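import Mathlib
import Pool.Agent.MP_fab550_an.H76.Block

set_option autoImplicit false

namespace Pool.Agent.MP_fab550_an.H76

open MeasureTheory Metric Filter Topology Set

lemma ulim {X : Type*} [PseudoMetricSpace X] [ProperSpace X] (u : ℕ → X) (x0 : X) (R : ℝ)
    (h : ∀ᶠ n in (hyperfilter ℕ : Filter ℕ), u n ∈ closedBall x0 R) :
    ∃ x, Tendsto u (hyperfilter ℕ : Filter ℕ) (𝓝 x) := by
  obtain ⟨x, -, hx⟩ := (isCompact_closedBall x0 R).ultrafilter_le_nhds' ((hyperfilter ℕ).map u) h
  exact ⟨x, hx⟩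

lemma lim_lip {U : ℕ → E → ℝ} {U' : E → ℝ} {L : ℝ}
    (hU : ∀ n y y', |U n y' - U n y| ≤ L * ‖y' - y‖)
    (hl : ∀ y, Tendsto (fun n => U n y) (hyperfilter ℕ : Filter ℕ) (𝓝 (U' y))) (y y' : E) :
    |U' y' - U' y| ≤ L * ‖y' - y‖ :=
  le_of_tendsto' ((hl y').sub (hl y)).abs (fun n => hU n y y')

lemma lim_comp {U : ℕ → E → ℝ} {U' : E → ℝ} {L : ℝ}
    (hU : ∀ n y y', |U n y' - U n y| ≤ L * ‖y' - y‖)
    (hl : ∀ y, Tendsto (fun n => U n y) (hyperfilter ℕ : Filter ℕ) (𝓝 (U' y))) {z : ℕ → E} {z' : E}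
    (hz : Tendsto z (hyperfilter ℕ : Filter ℕ) (𝓝 z')) :
    Tendsto (fun n => U n (z n)) (hyperfilter ℕ : Filter ℕ) (𝓝 (U' z')) := by
  have h1 : Tendsto (fun n => U n (z n) - U n z') (hyperfilter ℕ : Filter ℕ) (𝓝 0) := by
    have h2 : Tendsto (fun n => L * ‖z n - z'‖) (hyperfilter ℕ : Filter ℕ) (𝓝 0) := by
      have := (tendsto_iff_norm_sub_tendsto_zero.1 hz).const_mul L
      simpa using this
    exact squeeze_zero_norm (fun n => hU n z' (z n)) h2
  have := h1.add (hl z')
  simpa using this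

lemma line_integrable (G : E → ℝ) (hG : Measurable G) (C : ℝ) (hC : ∀ y, |G y| ≤ C) (y v : E)
    (h : ℝ) : IntervalIntegrable (fun s : ℝ => G (y + s • v)) volume 0 h := by
  rw [intervalIntegrable_iff]
  apply Measure.integrableOn_of_bounded (M := C)
  · simp [Set.uIoc]
  · exact (hG.comp (by fun_prop)).aestronglyMeasurable
  · exact ae_of_all _ (fun s => hC _)

lemma line_bound (U b : E → ℝ) (hU : ContDiff ℝ 1 U) (hb : Measurable b) (C : ℝ)
    (hC : ∀ y, |b y| ≤ C) (κ : ℝ) (hκ : ∀ z, ‖fderiv ℝ U z‖ ≤ κ * b z) (y v : E) (hv : ‖v‖ = 1)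
    (h : ℝ) (hh : 0 ≤ h) : U (y + h • v) - U y ≤ κ * ∫ s in (0 : ℝ)..h, b (y + s • v) := by
  have hd : ∀ s : ℝ, HasDerivAt (fun s : ℝ => U (y + s • v)) (fderiv ℝ U (y + s • v) v) s := by
    intro s
    have h1 : HasDerivAt (fun s : ℝ => y + s • v) v s := by
      simpa using ((hasDerivAt_id s).smul_const v).const_add y
    exact (hU.differentiable one_ne_zero _).hasFDerivAt.comp_hasDerivAt s h1
  have := norm_sub_le_integral_of_norm_deriv_le_of_le (f := fun s : ℝ => U (y + s • v))
    (B := fun s => κ * b (y + s • v)) hh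
    (fun s _ => (hd s).continuousAt.continuousWithinAt)
    (fun s _ => (hd s).differentiableAt.differentiableWithinAt)
    (ae_of_all _ (fun s _ => by
      rw [(hd s).deriv]
      refine ((fderiv ℝ U (y + s • v)).le_opNorm v).trans ?_
      rw [hv, mul_one]
      exact hκ _))
    ((line_integrable b hb C hC y v h).const_mul κ)
  rw [intervalIntegral.integral_const_mul] at this
  simp only [zero_smul, add_zero] at this
  exact (le_abs_self _).trans this

lemma exists_good_line (G : E → ℝ) (hG : Measurable G) (C : ℝ) (hG0 : ∀ y, 0 ≤ G y)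
    (hC : ∀ y, |G y| ≤ C) (z v : E) (hv : ‖v‖ = 1) (h : ℝ) (hh : 0 < h) :
    ∃ y ∈ closedBall z h, ∫ s in (0 : ℝ)..h, G (y + s • v) ≤
      4 * h * ⨍ y in closedBall z (2 * h), G y := by
  have hfin : ∀ r, volume (closedBall z r) ≠ ⊤ := fun r => measure_closedBall_lt_top.ne
  have : IsFiniteMeasure (volume.restrict (closedBall z h)) := isFiniteMeasure_restrict.2 (hfin h)
  have hmeas : Measurable (fun p : E × ℝ => G (p.1 + p.2 • v)) := hG.comp (by fun_prop)
  have hint : Integrable (Function.uncurry (fun (y : E) (s : ℝ) => G (y + s • v)))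
      ((volume.restrict (closedBall z h)).prod (volume.restrict (Ioc (0 : ℝ) h))) :=
    Integrable.of_bound hmeas.aestronglyMeasurable C (ae_of_all _ (fun p => hC _))
  have hswap := integral_integral_swap hint
  have hGi : IntegrableOn G (closedBall z (2 * h)) volume :=
    Measure.integrableOn_of_bounded (M := C) (hfin _) hG.aestronglyMeasurable
      (ae_of_all _ (fun y => hC y))
  have hinner : ∀ s ∈ Ioc (0 : ℝ) h, ∫ y in closedBall z h, G (y + s • v) ≤
      ∫ y in closedBall z (2 * h), G y := by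
    intro s hs
    rw [← integral_indicator measurableSet_closedBall, ← integral_indicator measurableSet_closedBall,
      ← integral_add_right_eq_self ((closedBall z (2 * h)).indicator G) (s • v)]
    apply integral_mono_of_nonneg
    · exact ae_of_all _ (fun y => indicator_nonneg (fun y _ => hG0 _) y)
    · exact ((integrable_indicator_iff measurableSet_closedBall).2 hGi).comp_add_right _
    · apply ae_of_all
      intro y
      by_cases hy : y ∈ closedBall z h
      · have : y + s • v ∈ closedBall z (2 * h) := by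
          rw [mem_closedBall, dist_eq_norm] at hy ⊢
          have h1 : ‖s • v‖ ≤ h := by
            rw [norm_smul, hv, mul_one, Real.norm_eq_abs, abs_of_pos hs.1]; exact hs.2
          rw [show y + s • v - z = (y - z) + s • v by abel]
          linarith [norm_add_le (y - z) (s • v)]
        simp only [indicator_of_mem hy, indicator_of_mem this, le_refl]
      · simp only [indicator_of_notMem hy]
        exact indicator_nonneg (fun y _ => hG0 _) _
  have htot : ∫ y in closedBall z h, ∫ s in Ioc (0 : ℝ) h, G (y + s • v) ≤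
      h * ∫ y in closedBall z (2 * h), G y := by
    rw [hswap]
    calc _ ≤ ∫ _s in Ioc (0 : ℝ) h, ∫ y in closedBall z (2 * h), G y :=
          setIntegral_mono_on hint.integral_prod_right (integrableOn_const (by simp))
            measurableSet_Ioc hinner
      _ = _ := by simp [hh.le]
  have hpos : volume (closedBall z h) ≠ 0 := (measure_closedBall_pos volume z hh).ne'
  obtain ⟨y, hy, hle⟩ := exists_le_setAverage hpos (hfin h) hint.integral_prod_left
  refine ⟨y, hy, ?_⟩
  rw [intervalIntegral.integral_of_le hh.le]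
  refine le_trans hle ?_
  rw [setAverage_eq, setAverage_eq, smul_eq_mul, smul_eq_mul]
  have hv1 : volume.real (closedBall z (2 * h)) = 4 * volume.real (closedBall z h) := by
    rw [Measure.addHaar_real_closedBall volume z (by positivity),
      Measure.addHaar_real_closedBall volume z hh.le]
    simp
    ring
  have hv0 : 0 < volume.real (closedBall z h) := ENNReal.toReal_pos hpos (hfin h)
  rw [hv1]
  calc _ ≤ (volume.real (closedBall z h))⁻¹ * (h * ∫ y in closedBall z (2 * h), G y) :=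
        mul_le_mul_of_nonneg_left htot (by positivity)
    _ = _ := by field_simp

lemma leb (U b : E → ℝ) (hb : Measurable b) (C : ℝ) (hC : ∀ y, |b y| ≤ C) (z : E) (hz : 0 ≤ b z)
    (hline : ∀ (y v : E) (h : ℝ), ‖v‖ = 1 → 0 ≤ h →
      U (y + h • v) - U y ≤ ∫ s in (0 : ℝ)..h, b (y + s • v))
    (hd : DifferentiableAt ℝ U z)
    (hleb : Tendsto (fun r => ⨍ y in closedBall z r, ‖b y - b z‖) (𝓝[>] 0) (𝓝 0)) :
    ‖fderiv ℝ U z‖ ≤ b z := by
  set L := fderiv ℝ U z with hL
  have key : ∀ v : E, ‖v‖ = 1 → L v ≤ b z := by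
    intro v hv
    apply le_of_forall_pos_le_add
    intro η hη
    have h1 := Asymptotics.isLittleO_iff.1 hd.hasFDerivAt.isLittleO (show 0 < η / 7 by positivity)
    obtain ⟨ρ, hρ, h1⟩ := Metric.eventually_nhds_iff_ball.1 h1
    have h2 := hleb.eventually (ge_mem_nhds (show (0 : ℝ) < η / 7 by positivity))
    obtain ⟨r, ⟨h2, h3⟩, h4⟩ := ((h2.and (nhdsWithin_le_nhds (Iio_mem_nhds hρ))).and
      self_mem_nhdsWithin).exists
    have h3' : r < ρ := h3
    have h4' : 0 < r := h4
    set h := r / 2 with hh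
    have hh0 : 0 < h := by positivity
    have hr : r = 2 * h := by rw [hh]; ring
    rw [hr] at h2 h3'
    have hGC : ∀ y, |‖b y - b z‖| ≤ 2 * C := by
      intro y
      rw [abs_norm, Real.norm_eq_abs]
      linarith [abs_sub (b y) (b z), hC y, hC z]
    have hGm : Measurable (fun y => ‖b y - b z‖) := (hb.sub_const _).norm
    obtain ⟨y, hy, hle⟩ := exists_good_line (fun y => ‖b y - b z‖) hGm (2 * C)
      (fun y => norm_nonneg _) hGC z v hv h hh0
    rw [mem_closedBall, dist_eq_norm] at hy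
    have h5 : ∫ s in (0 : ℝ)..h, b (y + s • v) ≤
        ∫ s in (0 : ℝ)..h, (b z + ‖b (y + s • v) - b z‖) := by
      apply intervalIntegral.integral_mono_on hh0.le (line_integrable b hb C hC y v h)
        (intervalIntegrable_const.add (line_integrable _ hGm (2 * C) hGC y v h))
      intro s _
      have := le_abs_self (b (y + s • v) - b z)
      rw [Real.norm_eq_abs]
      linarith
    rw [intervalIntegral.integral_add intervalIntegrable_const
      (line_integrable _ hGm (2 * C) hGC y v h), intervalIntegral.integral_const, sub_zero,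
      smul_eq_mul] at h5
    have h6 := hline y v h hv hh0.le
    have n1 : ‖y + h • v - z‖ ≤ 2 * h := by
      have h1 : ‖h • v‖ = h := by
        rw [norm_smul, hv, mul_one, Real.norm_eq_abs, abs_of_pos hh0]
      rw [show y + h • v - z = (y - z) + h • v by abel]
      linarith [norm_add_le (y - z) (h • v)]
    have a1 := h1 (y + h • v) (by rw [mem_ball, dist_eq_norm]; linarith)
    have a2 := h1 y (by rw [mem_ball, dist_eq_norm]; linarith)
    rw [Real.norm_eq_abs, abs_le] at a1 a2
    have e : L (y + h • v - z) = L (y - z) + h * L v := by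
      rw [show y + h • v - z = (y - z) + h • v by abel, map_add, map_smul, smul_eq_mul]
    rw [← hL] at a1 a2
    rw [e] at a1
    have b1 := mul_le_mul_of_nonneg_left n1 (show 0 ≤ η / 7 by positivity)
    have b2 := mul_le_mul_of_nonneg_left hy (show 0 ≤ η / 7 by positivity)
    have b3 := mul_le_mul_of_nonneg_left h2 (show 0 ≤ 4 * h by positivity)
    have : h * L v ≤ h * (b z + η) := by nlinarith [a1.1, a2.2]
    exact le_of_mul_le_mul_left this hh0
  apply ContinuousLinearMap.opNorm_le_of_unit_norm hz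
  intro v hv
  rw [Real.norm_eq_abs, abs_le]
  have := key (-v) (by rwa [norm_neg])
  rw [map_neg] at this
  exact ⟨by linarith, key v hv⟩

lemma lower_deriv (f : E → ℝ) (z : E) (γ : ℝ) (hd : DifferentiableAt ℝ f z)
    (h : ∀ η ρ : ℝ, 0 < η → 0 < ρ → ∃ w, 0 < ‖w - z‖ ∧ ‖w - z‖ ≤ ρ ∧
      (γ - η) * ‖w - z‖ ≤ f w - f z) : γ ≤ ‖fderiv ℝ f z‖ := by
  apply le_of_forall_pos_le_add
  intro η hη
  have h1 := Asymptotics.isLittleO_iff.1 hd.hasFDerivAt.isLittleO (show 0 < η / 2 by positivity)
  obtain ⟨ρ, hρ, h1⟩ := Metric.eventually_nhds_iff_ball.1 h1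
  obtain ⟨w, h2, h3, h4⟩ := h (η / 2) (ρ / 2) (by positivity) (by positivity)
  have a1 := h1 w (by rw [mem_ball, dist_eq_norm]; linarith)
  rw [Real.norm_eq_abs, abs_le] at a1
  have a2 : fderiv ℝ f z (w - z) ≤ ‖fderiv ℝ f z‖ * ‖w - z‖ :=
    (le_abs_self _).trans ((fderiv ℝ f z).le_opNorm _)
  have : γ * ‖w - z‖ ≤ (‖fderiv ℝ f z‖ + η) * ‖w - z‖ := by nlinarith [a1.2]
  exact le_of_mul_le_mul_right this h2

lemma dual_eq (a b : E →L[ℝ] ℝ) (β : ℝ) (ha : ‖a‖ ≤ β) (hb : ‖b‖ ≤ β)
    (h : 2 * β ≤ ‖a + b‖) : a = b := by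
  let e := (InnerProductSpace.toDual ℝ E).symm
  have h1 := parallelogram_law_with_norm ℝ (e a) (e b)
  rw [← map_add, ← map_sub, e.norm_map, e.norm_map, e.norm_map, e.norm_map] at h1
  have h0 := norm_nonneg a
  have h0' := norm_nonneg b
  have h2 : ‖a - b‖ * ‖a - b‖ ≤ 0 := by nlinarith
  have h3 : ‖a - b‖ = 0 := by nlinarith [norm_nonneg (a - b)]
  exact sub_eq_zero.1 (norm_eq_zero.1 h3)

lemma lip_null (Φ : E → E) (K : NNReal) (hΦ : LipschitzWith K Φ) (s : Set E) (hs : volume s = 0) :
    volume (Φ '' s) = 0 := by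
  have h1 : (μH[Module.finrank ℝ E] : Measure E) ≪ volume :=
    Measure.absolutelyContinuous_isAddHaarMeasure _ _
  have h2 : (volume : Measure E) ≪ μH[Module.finrank ℝ E] :=
    Measure.absolutelyContinuous_isAddHaarMeasure _ _
  apply h2
  have := hΦ.hausdorffMeasure_image_le (d := Module.finrank ℝ E) (Nat.cast_nonneg _) s
  rw [h1 hs, mul_zero] at this
  exact le_zero_iff.1 this

lemma sard (f g : E → ℝ) (L : ℝ) (hL : 0 ≤ L) (hf : ∀ y y', |f y' - f y| ≤ L * ‖y' - y‖)
    (hg : ∀ y y', |g y' - g y| ≤ L * ‖y' - y‖) (Z : Set E)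
    (hZ : ∀ s t : ℝ, ∃ z ∈ Z, f z = s ∧ g z = t)
    (hae : ∀ᵐ z, z ∈ Z → DifferentiableAt ℝ f z ∧ HasFDerivAt g (0 : E →L[ℝ] ℝ) z) : False := by
  let e0 : E := EuclideanSpace.single 0 1
  let e1 : E := EuclideanSpace.single 1 1
  let Φ : E → E := fun y => f y • e0 + g y • e1
  have hlip : LipschitzWith (2 * L).toNNReal Φ := by
    apply LipschitzWith.of_dist_le_mul
    intro x y
    rw [dist_eq_norm, dist_eq_norm, Real.coe_toNNReal _ (by positivity)]
    have e : Φ x - Φ y = (f x - f y) • e0 + (g x - g y) • e1 := by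
      simp only [Φ, sub_smul]; abel
    have n0 : ‖e0‖ = 1 := by simp [e0]
    have n1 : ‖e1‖ = 1 := by simp [e1]
    rw [e]
    refine (norm_add_le _ _).trans ?_
    rw [norm_smul, norm_smul, n0, n1, Real.norm_eq_abs, Real.norm_eq_abs]
    linarith [hf y x, hg y x]
  let N : Set E := {z | ¬(z ∈ Z → DifferentiableAt ℝ f z ∧ HasFDerivAt g (0 : E →L[ℝ] ℝ) z)}
  let Gd : Set E := {z | DifferentiableAt ℝ f z ∧ HasFDerivAt g (0 : E →L[ℝ] ℝ) z}
  have hN : volume (Φ '' N) = 0 := lip_null Φ _ hlip N hae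
  have hG : volume (Φ '' Gd) = 0 := by
    apply addHaar_image_eq_zero_of_det_fderivWithin_eq_zero volume
      (f' := fun z => (fderiv ℝ f z).smulRight e0)
    · intro z hz
      have := (hz.1.hasFDerivAt.smul_const e0).add (hz.2.smul_const e1)
      have h2 : ((0 : E →L[ℝ] ℝ).smulRight e1) = 0 := by ext; simp
      rw [h2, add_zero] at this
      exact this.hasFDerivWithinAt
    · intro z _
      by_contra hdet
      have hsurj : Function.Surjective ((fderiv ℝ f z).smulRight e0) := by
        have := (LinearMap.isUnit_iff_isUnit_det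
          (((fderiv ℝ f z).smulRight e0 : E →L[ℝ] E) : E →ₗ[ℝ] E)).2 (isUnit_iff_ne_zero.2 hdet)
        exact LinearMap.range_eq_top.1 ((LinearMap.isUnit_iff_range_eq_top _).1 this)
      obtain ⟨w, hw⟩ := hsurj e1
      have := congrArg (fun y : E => y 1) hw
      simp [e0, e1] at this
  have hall : (univ : Set E) ⊆ Φ '' N ∪ Φ '' Gd := by
    intro p _
    obtain ⟨z, hz, h1, h2⟩ := hZ (p 0) (p 1)
    have e : Φ z = p := by
      ext i
      fin_cases i <;> simp [Φ, e0, e1, h1, h2]
    by_cases hzN : z ∈ N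
    · exact Or.inl ⟨z, hzN, e⟩
    · exact Or.inr ⟨z, (not_not.1 hzN) hz, e⟩
  have := measure_mono_null hall (measure_union_null hN hG)
  exact (NeZero.ne (volume (univ : Set E))) this

end Pool.Agent.MP_fab550_an.H76
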