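import Mathlib
import Pool.Agent.MP_fab550_an.H76.Limit

set_option autoImplicit false

namespace Pool.Agent.MP_fab550_an.H76

open MeasureTheory Metric Filter Topology Set

lemma norm_le_coords (y : E) : ‖y‖ ≤ |y 0| + |y 1| := by
  rw [EuclideanSpace.norm_eq, Real.sqrt_le_left (by positivity), Fin.sum_univ_two,
    Real.norm_eq_abs, Real.norm_eq_abs]
  nlinarith [abs_nonneg (y 0), abs_nonneg (y 1)]

theorem core (m0 M0 : ℝ) (hm : 0 < m0) (ε τ : ℕ → ℝ) (R : ℕ → ℕ) (c A B : ℕ → E → ℝ)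
    (H : ∀ n, Lvl m0 M0 (ε n) (c n) (A n) (B n)) (hmono : ∀ m n, m ≤ n → ∀ y, c m y ≤ c n y)
    (hA0 : ∀ n, A n 0 = 0) (hB0 : ∀ n, B n 0 = 0)
    (hτ : ∀ n, 0 < τ n) (hτ1 : ∀ n, τ n ≤ 1) (hτ0 : Tendsto τ atTop (𝓝 0))
    (hR : ∀ n, ∀ x : ℝ, ∃ j k : ℤ, |j| ≤ R n ∧ |√2 * j + k - x| ≤ τ n)
    (hε : ∀ n, 0 < ε n) (hε1 : ∀ n, ε n ≤ 1) (hε0 : Tendsto ε atTop (𝓝 0))
    (hetτ : ∀ n, 10 * ε n * (2 * R n + 2 * M0 + 3) ≤ τ n) : False := by
  have hM : 0 < M0 := lt_of_lt_of_le hm (((H 0).lo 0).trans ((H 0).hi 0))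
  have hU : (hyperfilter ℕ : Filter ℕ) ≤ atTop := Nat.hyperfilter_le_atTop
  have hτU := hτ0.mono_left hU
  have hεU := hε0.mono_left hU
  have lA : ∀ n y y', |A n y' - A n y| ≤ 2 * M0 * ‖y' - y‖ := fun n =>
    glob_lip hm (hε1 n) (H n).lo (H n).hi (H n).dA (H n).bA
  have lB : ∀ n y y', |B n y' - B n y| ≤ 2 * M0 * ‖y' - y‖ := fun n =>
    glob_lip hm (hε1 n) (H n).lo (H n).hi (H n).dB (H n).bB
  have exA : ∀ y, ∃ x, Tendsto (fun n => A n y) (hyperfilter ℕ : Filter ℕ) (𝓝 x) := fun y =>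
    ulim _ 0 (2 * M0 * ‖y - 0‖) (Eventually.of_forall (fun n => by
      have := lA n 0 y
      rw [hA0] at this
      rwa [mem_closedBall, Real.dist_eq]))
  have exB : ∀ y, ∃ x, Tendsto (fun n => B n y) (hyperfilter ℕ : Filter ℕ) (𝓝 x) := fun y =>
    ulim _ 0 (2 * M0 * ‖y - 0‖) (Eventually.of_forall (fun n => by
      have := lB n 0 y
      rw [hB0] at this
      rwa [mem_closedBall, Real.dist_eq]))
  choose A' hA' using exA
  choose B' hB' using exB
  have lA' := lim_lip lA hA'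
  have lB' := lim_lip lB hB'
  let f : E → ℝ := fun y => (A' y + B' y) / 2
  let g : E → ℝ := fun y => (A' y - B' y) / 2
  have half : ∀ (U V : E → ℝ), (∀ y y', |U y' - U y| ≤ 2 * M0 * ‖y' - y‖) →
      (∀ y y', |V y' - V y| ≤ 2 * M0 * ‖y' - y‖) →
      (∀ y y', |(U y' + V y') / 2 - (U y + V y) / 2| ≤ 2 * M0 * ‖y' - y‖) ∧
      (∀ y y', |(U y' - V y') / 2 - (U y - V y) / 2| ≤ 2 * M0 * ‖y' - y‖) := by
    intro U V h1 h2
    constructor <;> intro y y' <;> have a := abs_le.1 (h1 y y') <;>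
      have b := abs_le.1 (h2 y y') <;> rw [abs_le] <;> constructor <;>
      linarith [a.1, a.2, b.1, b.2]
  let b : E → ℝ := fun y => ⨆ n, c n y
  have hbdd : ∀ y, BddAbove (range (fun n => c n y)) := fun y =>
    ⟨M0, by rintro _ ⟨n, rfl⟩; exact (H n).hi y⟩
  have hcb : ∀ n y, c n y ≤ b y := fun n y => le_ciSup (hbdd y) n
  have hb0 : ∀ y, 0 ≤ b y := fun y => hm.le.trans (((H 0).lo y).trans (hcb 0 y))
  have hbM : ∀ y, |b y| ≤ M0 := fun y => by
    rw [abs_of_nonneg (hb0 y)]; exact ciSup_le (fun n => (H n).hi y)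
  have hbm : Measurable b := Measurable.iSup (fun n => (H n).cont.measurable)
  let Z : Set E := {z | ∀ (m : ℕ) (η ρ : ℝ), 0 < η → 0 < ρ → ∃ w, 0 < ‖w - z‖ ∧ ‖w - z‖ ≤ ρ ∧
    (c m z - η) * ‖w - z‖ ≤ f w - f z}
  apply sard f g (2 * M0) (by positivity) (half A' B' lA' lB').1 (half A' B' lA' lB').2 Z
  · intro s t
    choose z hz1 hz2 hz3 using fun n =>
      point hm (H n) (τ n) (hτ n) (hτ1 n) (R n) (hR n) (hε n) (hε1 n) (hetτ n) s t
    set C1 := |s| + 1 + (2 * (2 * M0) + 2 * ‖lP‖) with hC1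
    set C2 := |t| + 2 + (2 * (2 * M0) + 2 * ‖lQ‖) with hC2
    have hzb : ∀ n, z n ∈ closedBall (0 : E) (C1 + (C2 + √2 * C1)) := by
      intro n
      have h1 := qp_bound _ lP (qp_f (H n).qA (H n).qB) (2 * M0) (by positivity)
        (half _ _ (lA n) (lB n)).1 (z n)
      have h2 := qp_bound _ lQ (qp_g (H n).qA (H n).qB) (2 * M0) (by positivity)
        (half _ _ (lA n) (lB n)).2 (z n)
      simp only [hA0, hB0, lP_apply, lQ_apply] at h1 h2
      have h3 := abs_le.1 (hz1 n)
      have h4 := abs_le.1 (hz2 n)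
      rw [abs_le] at h1 h2
      have h5 := hτ1 n
      have a0 : |z n 0| ≤ C1 := by
        rw [abs_le]
        constructor <;> linarith [h1.1, h1.2, h3.1, h3.2, le_abs_self s, neg_abs_le s]
      have a2 : |√2 * z n 0| ≤ √2 * C1 := by
        rw [abs_mul, abs_of_nonneg (Real.sqrt_nonneg _)]
        exact mul_le_mul_of_nonneg_left a0 (Real.sqrt_nonneg _)
      have a1 : |z n 1| ≤ C2 + √2 * C1 := by
        rw [abs_le] at a2 ⊢
        constructor <;> linarith [h2.1, h2.2, h4.1, h4.2, le_abs_self t, neg_abs_le t, a2.1, a2.2]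
      rw [mem_closedBall, dist_zero_right]
      linarith [norm_le_coords (z n)]
    obtain ⟨z', hz'⟩ := ulim z 0 _ (Eventually.of_forall hzb)
    have tA := lim_comp lA hA' hz'
    have tB := lim_comp lB hB' hz'
    refine ⟨z', ?_, ?_, ?_⟩
    · intro m η ρ hη hρ
      obtain ⟨r0, hr0, hr0'⟩ := Metric.continuousAt_iff.1 ((H m).cont.continuousAt (x := z')) η hη
      set r := min (min ρ (r0 / 3)) 1 with hr
      have hr1 : r ≤ 1 := min_le_right _ _
      have hr2 : r ≤ ρ := (min_le_left _ _).trans (min_le_left _ _)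
      have hr3 : r ≤ r0 / 3 := (min_le_left _ _).trans (min_le_right _ _)
      have hrp : 0 < r := lt_min (lt_min hρ (by positivity)) one_pos
      set γ := max (c m z' - η) 0 with hγ
      have hw : ∀ n, ∃ w : E, (m ≤ n ∧ ‖z n - z'‖ ≤ r0 / 3) → r ≤ ‖w - z n‖ ∧ ‖w - z n‖ ≤ r + τ n ∧
          γ * ‖w - z n‖ - τ n ≤ (A n w + B n w) / 2 - (A n (z n) + B n (z n)) / 2 := by
        intro n
        by_cases hn : m ≤ n ∧ ‖z n - z'‖ ≤ r0 / 3
        · obtain ⟨w, hw⟩ := hz3 n r γ hrp hr1 (le_max_right _ _) (by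
            intro y hy
            apply max_le _ (hm.le.trans ((H n).lo y))
            have h1 : dist y z' < r0 := by
              rw [dist_eq_norm]
              linarith [norm_sub_le_norm_sub_add_norm_sub y (z n) z', hn.2]
            have h2 := hr0' h1
            rw [Real.dist_eq, abs_lt] at h2
            linarith [hmono m n hn.1 y, h2.1])
          exact ⟨w, fun _ => hw⟩
        · exact ⟨0, fun h => absurd h hn⟩
      choose w hw using hw
      have hev : ∀ᶠ n in (hyperfilter ℕ : Filter ℕ), m ≤ n ∧ ‖z n - z'‖ ≤ r0 / 3 :=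
        ((eventually_ge_atTop m).filter_mono hU).and
          ((tendsto_iff_norm_sub_tendsto_zero.1 hz').eventually (ge_mem_nhds (by positivity)))
      have hev2 := hev.mono (fun n hn => hw n hn)
      obtain ⟨w', hw'⟩ := ulim w z' (r0 / 3 + 2) (by
        filter_upwards [hev, hev2] with n h1 h2
        rw [mem_closedBall, dist_eq_norm]
        linarith [norm_sub_le_norm_sub_add_norm_sub (w n) (z n) z', h1.2, h2.2.1, hτ1 n])
      have tn : Tendsto (fun n => ‖w n - z n‖) (hyperfilter ℕ : Filter ℕ) (𝓝 ‖w' - z'‖) :=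
        (hw'.sub hz').norm
      have c1 : r ≤ ‖w' - z'‖ := ge_of_tendsto tn (hev2.mono (fun n h => h.1))
      have c2 : ‖w' - z'‖ ≤ r + 0 :=
        le_of_tendsto_of_tendsto tn (tendsto_const_nhds.add hτU) (hev2.mono (fun n h => h.2.1))
      have c3 : γ * ‖w' - z'‖ - 0 ≤ (A' w' + B' w') / 2 - (A' z' + B' z') / 2 :=
        le_of_tendsto_of_tendsto ((tn.const_mul γ).sub hτU)
          ((((lim_comp lA hA' hw').add (lim_comp lB hB' hw')).div_const 2).sub
            ((tA.add tB).div_const 2)) (hev2.mono (fun n h => h.2.2))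
      refine ⟨w', by linarith, by linarith, ?_⟩
      have c4 := mul_le_mul_of_nonneg_right (le_max_left (c m z' - η) 0) (norm_nonneg (w' - z'))
      simp only [f]
      linarith
    · have h1 : |f z' - s| ≤ 0 :=
        le_of_tendsto_of_tendsto' (((tA.add tB).div_const 2).sub_const s).abs hτU hz1
      exact sub_eq_zero.1 (abs_nonpos_iff.1 h1)
    · have h1 : |g z' - t| ≤ 2 * 0 :=
        le_of_tendsto_of_tendsto' (((tA.sub tB).div_const 2).sub_const t).abs (hτU.const_mul 2) hz2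
      rw [mul_zero] at h1
      exact sub_eq_zero.1 (abs_nonpos_iff.1 h1)
  · have line : ∀ (U : ℕ → E → ℝ) (U' : E → ℝ), (∀ n, ContDiff ℝ 1 (U n)) →
        (∀ n z, ‖fderiv ℝ (U n) z‖ ≤ (1 + ε n) * c n z) →
        (∀ y, Tendsto (fun n => U n y) (hyperfilter ℕ : Filter ℕ) (𝓝 (U' y))) →
        ∀ (y v : E) (h : ℝ), ‖v‖ = 1 → 0 ≤ h →
          U' (y + h • v) - U' y ≤ ∫ s in (0 : ℝ)..h, b (y + s • v) := by
      intro U U' h1 h2 h3 y v h hv hh
      have t1 : Tendsto (fun n => (1 + ε n) * ∫ s in (0 : ℝ)..h, b (y + s • v))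
          (hyperfilter ℕ : Filter ℕ) (𝓝 ((1 + 0) * ∫ s in (0 : ℝ)..h, b (y + s • v))) :=
        (tendsto_const_nhds.add hεU).mul_const _
      rw [add_zero, one_mul] at t1
      refine le_of_tendsto_of_tendsto' ((h3 _).sub (h3 _)) t1 (fun n => ?_)
      exact line_bound (U n) b (h1 n) hbm M0 hbM _ (fun z => (h2 n z).trans
        (mul_le_mul_of_nonneg_left (hcb n z) (by linarith [hε n]))) y v hv h hh
    have lineA := line A A' (fun n => (H n).dA) (fun n => (H n).bA) hA'
    have lineB := line B B' (fun n => (H n).dB) (fun n => (H n).bB) hB'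
    have lipA : LipschitzWith (2 * M0).toNNReal A' := LipschitzWith.of_dist_le_mul (fun x y => by
      rw [Real.dist_eq, dist_eq_norm, Real.coe_toNNReal _ (by positivity)]; exact lA' y x)
    have lipB : LipschitzWith (2 * M0).toNNReal B' := LipschitzWith.of_dist_le_mul (fun x y => by
      rw [Real.dist_eq, dist_eq_norm, Real.coe_toNNReal _ (by positivity)]; exact lB' y x)
    have hloc : LocallyIntegrable b volume := by
      rw [locallyIntegrable_iff]
      intro K hK
      exact Measure.integrableOn_of_bounded (M := M0) hK.measure_lt_top.ne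
        hbm.aestronglyMeasurable (ae_of_all _ (fun y => hbM y))
    filter_upwards [lipA.ae_differentiableAt, lipB.ae_differentiableAt,
      IsUnifLocDoublingMeasure.ae_tendsto_average_norm_sub volume hloc 1] with z dA dB hl hz
    have hleb : Tendsto (fun r => ⨍ y in closedBall z r, ‖b y - b z‖) (𝓝[>] 0) (𝓝 0) :=
      hl (fun _ => z) id tendsto_id (by
        filter_upwards [self_mem_nhdsWithin] with r hr
        exact mem_closedBall_self (by simpa using le_of_lt hr))
    have nA := leb A' b hbm M0 hbM z (hb0 z) lineA dA hleb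
    have nB := leb B' b hbm M0 hbM z (hb0 z) lineB dB hleb
    have df : HasFDerivAt f ((1 / 2 : ℝ) • (fderiv ℝ A' z + fderiv ℝ B' z)) z := by
      have := (dA.hasFDerivAt.add dB.hasFDerivAt).const_mul (1 / 2 : ℝ)
      refine this.congr_of_eventuallyEq (Eventually.of_forall (fun y => ?_))
      simp only [f, Pi.add_apply]; ring
    have dg : HasFDerivAt g ((1 / 2 : ℝ) • (fderiv ℝ A' z - fderiv ℝ B' z)) z := by
      have := (dA.hasFDerivAt.sub dB.hasFDerivAt).const_mul (1 / 2 : ℝ)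
      refine this.congr_of_eventuallyEq (Eventually.of_forall (fun y => ?_))
      simp only [g, Pi.sub_apply]; ring
    have hlow : b z ≤ ‖fderiv ℝ f z‖ :=
      ciSup_le (fun m => lower_deriv f z (c m z) df.differentiableAt (hz m))
    rw [df.fderiv, norm_smul] at hlow
    have heq := dual_eq _ _ (b z) nA nB (by norm_num at hlow; linarith)
    rw [heq, sub_self, smul_zero] at dg
    exact ⟨df.differentiableAt, dg⟩

end Pool.Agent.MP_fab550_an.H76
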